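import Pool.Agent.Helper89.LD8.STA
import Pool.Agent.Helper8.LD8.WinF

/-!
# Project LD8, block STA8: start of a stage, the sums on a good window (final form)
-/

set_option autoImplicit false

namespace Pool.Agent.Helper89.LD8

open Set MeasureTheory Filter Topology
open Pool.Agent.Helper41.LD6 (hr Qs dm)
open Pool.Agent.Helper78.LD8

variable {F : Pm} {K : ℕ} {ℓst a ℓ x : ℝ} {q : Fin (F.d + 1) → ℕ}

theorem stage_start8 (hF : F.Ok) (hK : F.Big K) (hN : F.NR K) (hst : 0 < ℓst) (a : ℝ) : F.Good K ℓst a ℓst :=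
  stage_start8_of hF hK a fun _ hq => Pool.Agent.Helper8.LD8.win hF hK hN hst hq a

theorem stage_sums8 (hF : F.Ok) (hK : F.Big K) (hN : F.NR K) (hℓ : 0 < ℓ) (hT : F.T K ℓst ℓ ≤ 2 ^ (2 * K)) (hgood : F.Good K ℓst a ℓ)
    (hx : x ∈ Icc a (a + ℓ)) (hqs : q ∈ Qs F.d K) :
    |∑ j ∈ Finset.range (F.T K ℓst ℓ), ∏ i : Fin (F.d + 1), hr (q i) (F.U K ℓst (j + i) x)| ≤
      131072 * F.X * (F.d + 4) * (K : ℝ) ^ (2 * F.a + 2) * (4 * (K : ℝ)) ^ dm q :=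
  stage_sums8_of hF hK hℓ hT hgood hx hqs (Pool.Agent.Helper8.LD8.win hF hK hN hℓ hqs a)

end Pool.Agent.Helper89.LD8
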